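import Pool.Agent.Work.MP_df5cf0_gt.Top

-- merged part: Pool.Agent.Work.MP_df5cf0_gt.Hedge.Orbit
section
/-! The limit group, its orbits, and the dimension of the continuum. -/

namespace Pool.Agent.Work.MP_df5cf0_gt

open Function Filter Topology Set

instance : Nonempty Th := ⟨exists_far.choose⟩

theorem closed_mk {A : Set Th} (hA : ∀ t : Th, (∀ n, ∃ t' ∈ A, t'.x n = t.x n) → t ∈ A) :
    IsClosed (mk '' A) := by
  refine isClosed_of_closure_subset fun p hp => ?_
  obtain ⟨u, hu, hl⟩ := mem_closure_iff_seq_limit.1 hp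
  choose s hs e using hu
  obtain ⟨t, ht⟩ := exists_ulim (hyperfilter ℕ) s
  refine ⟨t, hA t fun n => ?_, ?_⟩
  · obtain ⟨i, hi⟩ := (ht n).exists
    exact ⟨s i, hs i, hi⟩
  · refine tendsto_nhds_unique (l := (hyperfilter ℕ : Filter ℕ)) (f := u) ?_
      (hl.mono_left Nat.hyperfilter_le_atTop)
    rw [Metric.tendsto_nhds]
    intro ε hε
    obtain ⟨n, hn⟩ := near_of_pos hε
    filter_upwards [ht n] with i hi
    rw [← e, dist_mk]
    exact hn _ _ (Near.of_eq hi)

theorem near_of_mk {t t' : Th} (h : mk t = mk t') (n : ℕ) : Near n t t' :=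
  near_of_dist_eq_zero (by rw [← dist_mk, h, dist_self]) n

theorem near_trans (m : ℕ) : ∃ m', ∀ (t t' : Th) (p q : XX), mk t = p → mk t' = q →
    Near m' (out p) (out q) → Near m t t' := by
  obtain ⟨m', h⟩ := near_three m
  exact ⟨m', fun t t' p q h1 h2 h3 => h _ _ _ _ (h1 ▸ near_out t m') h3 (h2 ▸ near_out t' m').symm⟩

theorem td_of {D : Set XX} (α : XX → Th) (hα : ∀ p ∈ D, mk (α p) = p)
    (h : ∀ k, ∃ m, ∀ p ∈ D, ∀ q ∈ D, Near m (out p) (out q) → (α p).x k = (α q).x k) :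
    IsTotallyDisconnected D := by
  intro W hW hc p hp q hq
  rw [← hα p (hW hp), ← hα q (hW hq)]
  refine mk_eq fun k => Near.of_eq ?_
  obtain ⟨m, hm⟩ := h k
  exact const_on hc continuous_id (fun y => (α y).x k) m
    (fun y hy y' hy' => hm y (hW hy) y' (hW hy')) hp hq

theorem sub_clique (A : Obj) {u v w : (Sub A).V} (h1 : (Sub A).adj u v) (h2 : (Sub A).adj w u)
    (hne : std u ≠ std v) : std w = std u ∨ std w = std v := by
  rcases h1 with h | h | ⟨a, b, i, j, rfl, rfl, -⟩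
  · exact absurd (by rw [h]; rfl) hne
  · exact absurd (by rw [h]; rfl) hne
  · rcases h2 with h | h | ⟨a', b', i', j', rfl, h, -⟩
    · exact Or.inl (by rw [h]; rfl)
    · simp at h
    · simp only [Sum.inr.injEq, Prod.mk.injEq] at h
      obtain ⟨rfl, rfl, rfl⟩ := h
      cases i <;> cases j <;> cases i' <;> simp_all [std]

theorem dim_le_one : HasSmallInductiveDimensionLE XX 1 := by
  classical
  refine .succ 1 {U | IsOpen U ∧ IsTotallyDisconnected (frontier U)}
    (TopologicalSpace.isTopologicalBasis_of_isOpen_of_nhds (fun U hU => hU.1) fun p V hp hV => ?_)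
    fun U hU => ?_
  · obtain ⟨x, rfl⟩ := mk_surj p
    obtain ⟨ε, hε, hb⟩ := Metric.isOpen_iff.1 hV _ hp
    obtain ⟨n, hn⟩ := near_of_pos hε
    have c1 : IsClosed (mk '' {t | Near n t x}) := closed_mk fun t ht => by
      obtain ⟨t', h1, h2⟩ := ht n
      simpa only [mem_ofPred_eq, Near, h2] using h1
    have c2 : IsClosed (mk '' {t | ¬ Near n t x}) := closed_mk fun t ht => by
      obtain ⟨t', h1, h2⟩ := ht n
      simpa only [mem_ofPred_eq, Near, h2] using h1
    have hs : (mk '' {t | ¬ Near n t x})ᶜ ⊆ mk '' {t | Near n t x} := fun q hq =>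
      ⟨out q, by_contra fun h => hq ⟨out q, h, mk_out q⟩, mk_out q⟩
    refine ⟨(mk '' {t | ¬ Near n t x})ᶜ, ⟨c2.isOpen_compl, ?_⟩, ?_, hs.trans ?_⟩
    · have hf : ∀ q ∈ frontier (mk '' {t | ¬ Near n t x})ᶜ,
          (∃ t, Near n t x ∧ mk t = q) ∧ ∃ t, ¬ Near n t x ∧ mk t = q := fun q hq =>
        ⟨c1.closure_subset_iff.2 hs hq.1, by
          rw [frontier_compl] at hq
          exact c2.frontier_subset hq⟩
      choose! α hα hα' using fun q hq => (hf q hq).1
      choose! β hβ hβ' using fun q hq => (hf q hq).2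
      refine td_of α hα' fun k => ?_
      obtain ⟨w, hw, e⟩ := (lm_proj (max n k)).ext (Mor.basic (std_basic (seq (max n k))))
      obtain ⟨m, hm, -⟩ := hw.near
      obtain ⟨m', hm'⟩ := near_trans m
      refine ⟨m', fun p hp q hq h => eq_of_eq_succ (le_max_right n k) ?_⟩
      have hne : ∀ t t', Near n t x → ¬ Near n t' x → t.x (max n k) ≠ t'.x (max n k) :=
        fun t t' h1 h2 h3 => h2 (by
          have := eq_of_eq_succ (le_max_left n k) h3
          rwa [Near, ← this])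
      have h4 := sub_clique _ (hm _ _ (near_of_mk ((hα' p hp).trans (hβ' p hp).symm) m))
        (hm _ _ (hm' _ _ _ _ (hα' p hp) (hα' q hq) h).symm)
        (by rw [e, e]; exact hne _ _ (hα p hp) (hβ p hp))
      rw [e, e, e] at h4
      exact (h4.resolve_right (hne _ _ (hα q hq) (hβ p hp))).symm
    · rintro ⟨t, ht, e⟩
      exact ht (near_of_mk e n)
    · rintro _ ⟨t, ht, rfl⟩
      exact hb (by rw [Metric.mem_ball, dist_mk]; exact hn _ _ ht)
  · have : CompactSpace (frontier U) := isCompact_iff_compactSpace.1 isClosed_frontier.isCompact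
    have : TotallyDisconnectedSpace (frontier U) := totallyDisconnectedSpace_subtype_iff.2 hU.2
    exact hasSmallInductiveDimensionLT_one_iff.2 isTopologicalBasis_isClopen

theorem dim_eq_one : smallInductiveDimension XX = 1 := by
  refine le_antisymm (smallInductiveDimension_le_iff.2 dim_le_one) (not_lt.1 fun h => ?_)
  have hb := hasSmallInductiveDimensionLT_one_iff.1 (smallInductiveDimension_lt_iff.1 h)
  obtain ⟨p, q, hpq⟩ := exists_pair_ne XX
  obtain ⟨U, hU, h1, h2⟩ := hb.exists_subset_of_mem_open (show p ∈ {q}ᶜ from hpq) isOpen_compl_singleton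
  rcases isClopen_iff.1 hU with rfl | rfl
  · exact h1
  · exact h2 (mem_univ q) rfl

/-- compatible families of group elements -/
def Compat (g : ∀ n, (seq n).V → (seq n).V) : Prop :=
  (∀ n, g n ∈ (seq n).G) ∧ ∀ n a, bond n (g (n + 1) a) = g n (bond n a)

/-- the action on threads -/
def Compat.act {g : ∀ n, (seq n).V → (seq n).V} (h : Compat g) (t : Th) : Th :=
  ⟨fun n => g n (t.x n), fun n => by rw [h.2, t.compat]⟩

theorem Compat.near {g : ∀ n, (seq n).V → (seq n).V} (h : Compat g) (j : ℕ) :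
    ∃ n, ∀ t t', Near n t t' → Near j (h.act t) (h.act t') :=
  ⟨j, fun _ _ ht => (seq j).s.map_adj _ (h.1 j) _ _ ht⟩

theorem Compat.inv {g : ∀ n, (seq n).V → (seq n).V} (h : Compat g) :
    ∃ g', Compat g' ∧ (∀ n a, g' n (g n a) = a) ∧ ∀ n a, g n (g' n a) = a := by
  choose g' h1 h2 h3 using fun n => (seq n).exists_inv (h.1 n)
  exact ⟨g', ⟨h1, fun n a => by rw [← h2 n (bond n (g' (n + 1) a)), ← h.2, h3]⟩, h2, h3⟩

theorem mk_ext {t t' : Th} (h : ∀ n, t.x n = t'.x n) : mk t = mk t' :=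
  mk_eq fun n => Near.of_eq (h n)

/-- the limit group -/
def GG : Subgroup (XX ≃ₜ XX) where
  carrier := {φ | ∃ g, ∃ h : Compat g, ∀ t, φ (mk t) = mk (h.act t)}
  one_mem' := ⟨fun _ => id, ⟨fun n => (seq n).s.id_mem, fun _ _ => rfl⟩, fun _ => rfl⟩
  mul_mem' := fun ⟨g, h, e⟩ ⟨g', h', e'⟩ => ⟨fun n => g n ∘ g' n,
    ⟨fun n => (seq n).s.comp_mem _ _ (h.1 n) (h'.1 n), fun n a => by simp [h.2, h'.2]⟩,
    fun t => by rw [Homeomorph.mul_apply, e', e]; rfl⟩
  inv_mem' := fun {φ} ⟨g, h, e⟩ => by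
    obtain ⟨g', h', -, h2⟩ := h.inv
    refine ⟨g', h', fun t => φ.injective ?_⟩
    rw [e, ← Homeomorph.mul_apply, mul_inv_cancel]
    exact mk_ext fun n => (h2 n _).symm

theorem Compat.homeo {g : ∀ n, (seq n).V → (seq n).V} (h : Compat g) :
    ∃ φ ∈ GG, ∀ t, φ (mk t) = mk (h.act t) := by
  obtain ⟨g', h', h1, h2⟩ := h.inv
  have e := mk_map_out h.near
  refine ⟨⟨⟨fun p => mk (h.act (out p)), fun p => mk (h'.act (out p)), fun p => ?_, fun p => ?_⟩,
    continuous_of_near h.near, continuous_of_near h'.near⟩, ⟨g, h, e⟩, e⟩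
  · show mk (h'.act (out (mk (h.act (out p))))) = p
    rw [mk_map_out h'.near]
    exact (mk_ext fun n => h1 n _).trans (mk_out p)
  · show mk (h.act (out (mk (h'.act (out p))))) = p
    rw [mk_map_out h.near]
    exact (mk_ext fun n => h2 n _).trans (mk_out p)

/-- the threads in the orbit of `x` at every level -/
def Orb (x : Th) : Set Th := {t | ∀ n, ∃ g ∈ (seq n).G, t.x n = g (x.x n)}

theorem orbit_eq (x : Th) : {p | ∃ φ ∈ GG, φ (mk x) = p} = mk '' Orb x := by
  refine Subset.antisymm ?_ ?_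
  · rintro _ ⟨φ, ⟨g, h, e⟩, rfl⟩
    exact ⟨h.act x, fun n => ⟨g n, h.1 n, rfl⟩, (e x).symm⟩
  · rintro _ ⟨t, ht, rfl⟩
    choose g hg e using ht
    have h : Compat g := ⟨hg, fun n a => by
      obtain ⟨k, hk, ek⟩ := (bond_mor n).hom.down _ (hg (n + 1))
      obtain ⟨k', hk', h1, -⟩ := (seq n).exists_inv hk
      have h2 : (k' ∘ g n) (x.x n) = x.x n := by
        rw [comp_apply, ← e, ← t.compat, e, ek, x.compat, h1]
      have h3 := (seq n).fix ((seq n).s.comp_mem _ _ hk' (hg n)) h2 (bond n a)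
      rw [ek]
      exact (seq n).s.inj _ hk' (by rw [h1]; exact h3.symm)⟩
    obtain ⟨φ, hφ, e'⟩ := h.homeo
    exact ⟨φ, hφ, (e' x).trans (mk_ext fun n => (e n).symm)⟩

theorem orb_closed (x : Th) : IsClosed (mk '' Orb x) := closed_mk fun t ht n => by
  obtain ⟨t', h1, h2⟩ := ht n
  exact h2 ▸ h1 n

theorem sub_orbit (A : Obj) {F : (Sub A).V → (Sub A).V} (hF : F ∈ (Sub A).G) {u : (Sub A).V}
    (h : (Sub A).adj u (F u)) : std u = std (F u) := by
  obtain ⟨g, -, rfl⟩ := hF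
  rcases h with h | h | ⟨a, b, i, j, rfl, h, -⟩
  · conv_lhs => rw [h]
    rfl
  · rw [h]
    rfl
  · simp only [act, Sum.inr.injEq, Prod.mk.injEq] at h
    simp only [act, h.1, h.2.1]

theorem orb_sep (k : ℕ) : ∃ m, ∀ x : Th, ∀ t ∈ Orb x, ∀ t' ∈ Orb x, Near m t t' →
    t.x k = t'.x k := by
  obtain ⟨w, ⟨m, wm, hw, ew⟩, e⟩ := (lm_proj k).ext (Mor.basic (std_basic (seq k)))
  refine ⟨m, fun x t ht t' ht' h => ?_⟩
  obtain ⟨g, hg, e1⟩ := ht m
  obtain ⟨g', hg', e2⟩ := ht' m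
  obtain ⟨g₀, hg₀, h1, -⟩ := (seq m).exists_inv hg
  obtain ⟨F, hF, eF⟩ := hw.hom.down _ ((seq m).s.comp_mem _ _ hg' hg₀)
  have e3 : w t' = F (w t) := by rw [ew, ew, ← eF, comp_apply, e1, h1, e2]
  have h2 : (Sub (seq k)).adj (w t) (w t') := by
    rw [ew, ew]
    exact hw.hom.map_adj _ _ h
  rw [← e, ← e, e3]
  exact sub_orbit _ hF (e3 ▸ h2)

theorem orb_td (x : Th) : IsTotallyDisconnected (mk '' Orb x) := by
  choose! α hα hα' using fun (p : XX) (hp : p ∈ mk '' Orb x) => hp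
  refine td_of α hα' fun k => ?_
  obtain ⟨m, hm⟩ := orb_sep k
  obtain ⟨m', hm'⟩ := near_trans m
  exact ⟨m', fun p hp q hq h => hm x _ (hα p hp) _ (hα q hq) (hm' _ _ _ _ (hα' p hp) (hα' q hq) h)⟩

theorem GG_free {φ : XX ≃ₜ XX} (hφ : φ ∈ GG) {p : XX} (hp : φ p = p) : φ = 1 := by
  obtain ⟨g, h, e⟩ := hφ
  obtain ⟨x, rfl⟩ := mk_surj p
  have h1 : ∀ k, g k (x.x k) = x.x k := fun k => by
    obtain ⟨m, hm⟩ := orb_sep k
    exact hm x (h.act x) (fun n => ⟨g n, h.1 n, rfl⟩) x (fun n => ⟨id, (seq n).s.id_mem, rfl⟩)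
      (near_of_mk ((e x).symm.trans hp) m)
  refine Homeomorph.ext fun q => ?_
  obtain ⟨y, rfl⟩ := mk_surj q
  exact (e y).trans (mk_ext fun n => (seq n).fix (h.1 n) (h1 n) _)

end Pool.Agent.Work.MP_df5cf0_gt
end

-- merged part: Pool.Agent.Work.MP_df5cf0_gt.Hedge.Meet
section
/-! Every simple closed curve meets every orbit. -/

namespace Pool.Agent.Work.MP_df5cf0_gt

open Function Filter Topology Set

theorem not_missed {f : Circle → XX} (hf : Continuous f) (hinj : Injective f) (x : Th) (n₀ : ℕ)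
    (h₀ : ∀ n, n₀ ≤ n → ∀ z, ∀ g ∈ (seq n).G, (out (f z)).x n ≠ g (x.x n)) : False := by
  classical
  let ρ : ℝ → XX := fun t => f (Circle.exp (Real.pi / 2 * t))
  have hρ : Continuous ρ := hf.comp (Circle.exp.continuous.comp (continuous_const.mul continuous_id))
  have hpi := Real.pi_pos
  have hsep : ∀ a : ℝ, ∀ s ∈ Icc a (a + 1), ∀ t ∈ Icc (a + 2) (a + 3), ρ s ≠ ρ t := by
    intro a s hs t ht e
    have := Circle.exp_injOn_Icc (a := Real.pi / 2 * a) (b := Real.pi / 2 * (a + 3)) (by nlinarith)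
      ⟨by nlinarith [hs.1], by nlinarith [hs.2]⟩ ⟨by nlinarith [ht.1], by nlinarith [ht.2]⟩ (hinj e)
    nlinarith [hs.2, ht.1]
  obtain ⟨n₁, hn₁⟩ := exists_sep hρ (by norm_num) (by norm_num) (hsep 0)
  obtain ⟨n₂, hn₂⟩ := exists_sep hρ (by norm_num) (by norm_num) (hsep 1)
  let n := max (max n₁ n₂) n₀
  let τ : ℝ → Th := fun t => out (ρ t)
  have h13 : ∀ s ∈ Icc (0 : ℝ) 1, ∀ t ∈ Icc (2 : ℝ) 3, (τ s).x n ≠ (τ t).x n := fun s hs t ht e =>
    hn₁ s (by simpa using hs) t (by simpa using ht) 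
      (eq_of_eq_succ ((le_max_left _ _).trans (le_max_left _ _)) e)
  have h24 : ∀ s ∈ Icc (1 : ℝ) 2, ∀ t ∈ Icc (3 : ℝ) 4, (τ s).x n ≠ (τ t).x n := fun s hs t ht e =>
    hn₂ s ⟨hs.1, by linarith [hs.2]⟩ t ⟨by linarith [ht.1], by linarith [ht.2]⟩
      (eq_of_eq_succ ((le_max_right _ _).trans (le_max_left _ _)) e)
  let χ : (seq n).V → ZMod 2 := fun a => if ∃ t ∈ Icc (0 : ℝ) 1, (τ t).x n = a then 1 else 0
  let P : (seq n).V → Prop := fun a => ∃ t ∈ Icc (1 : ℝ) 2, (τ t).x n = a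
  obtain ⟨s, m, hs, -⟩ := exists_sheet n (fun a b => if P a ∧ P b then χ a + χ b else 0)
    (fun a => by simp [CharTwo.add_self_eq_zero]) (fun a b => by simp only [and_comm, add_comm])
    (x.x n)
  have hs' : ∀ u v : ℝ, Near m (τ u) (τ v) → s (τ v) = s (τ u) +
      (if P ((τ u).x n) ∧ P ((τ v).x n) then χ ((τ u).x n) + χ ((τ v).x n) else 0) :=
    fun u v h => hs _ _ h (h₀ n (le_max_right _ _) _)
  have χ1 : ∀ t ∈ Icc (0 : ℝ) 1, χ ((τ t).x n) = 1 := fun t ht => if_pos ⟨t, ht, rfl⟩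
  have χ3 : ∀ t ∈ Icc (2 : ℝ) 3, χ ((τ t).x n) = 0 := fun t ht =>
    if_neg fun ⟨u, hu, e⟩ => h13 u hu t ht e
  have e1 : s (τ 0) = s (τ 1) :=
    const_on (isPreconnected_Icc (a := (0 : ℝ)) (b := 1)) hρ (fun t => s (τ t)) m
      (fun u hu v hv h => by
        rw [hs' u v h, χ1 u hu, χ1 v hv]
        simp [CharTwo.add_self_eq_zero]) (by norm_num) (by norm_num)
  have e2 : s (τ 1) + χ ((τ 1).x n) = s (τ 2) + χ ((τ 2).x n) :=
    const_on (isPreconnected_Icc (a := (1 : ℝ)) (b := 2)) hρ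
      (fun t => s (τ t) + χ ((τ t).x n)) m
      (fun u hu v hv h => by
        rw [hs' u v h, if_pos ⟨⟨u, hu, rfl⟩, ⟨v, hv, rfl⟩⟩, add_assoc, add_assoc,
          CharTwo.add_self_eq_zero, add_zero]) (by norm_num) (by norm_num)
  have e3 : s (τ 2) = s (τ 3) :=
    const_on (isPreconnected_Icc (a := (2 : ℝ)) (b := 3)) hρ (fun t => s (τ t)) m
      (fun u hu v hv h => by
        rw [hs' u v h, χ3 u hu, χ3 v hv]
        simp) (by norm_num) (by norm_num)
  have e4 : s (τ 3) = s (τ 4) :=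
    const_on (isPreconnected_Icc (a := (3 : ℝ)) (b := 4)) hρ (fun t => s (τ t)) m
      (fun u hu v hv h => by
        rw [hs' u v h, if_neg, add_zero]
        rintro ⟨⟨w, hw, e⟩, -⟩
        exact h24 w hw u hu e) (by norm_num) (by norm_num)
  have e5 : τ 4 = τ 0 := by
    have : ρ 4 = ρ 0 := by
      show f _ = f _
      congr 1
      rw [show Real.pi / 2 * 4 = 2 * Real.pi by ring, Circle.exp_two_pi, mul_zero, Circle.exp_zero]
    show out _ = out _
    rw [this]
  rw [χ1 1 (by norm_num), χ3 2 (by norm_num), add_zero, e3, e4, e5, e1] at e2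
  simp at e2

theorem orb_down {x t : Th} {n m : ℕ} (hnm : n ≤ m) (h : ∃ g ∈ (seq m).G, t.x m = g (x.x m)) :
    ∃ g ∈ (seq n).G, t.x n = g (x.x n) := by
  induction m, hnm using Nat.le_induction with
  | base => exact h
  | succ m _ ih =>
    obtain ⟨g, hg, e⟩ := h
    obtain ⟨k, hk, ek⟩ := (bond_mor m).hom.down g hg
    exact ih ⟨k, hk, by rw [← t.compat, e, ek, x.compat]⟩

theorem meets {f : Circle → XX} (hf : Continuous f) (hinj : Injective f) (x : Th) :
    ∃ t ∈ Orb x, mk t ∈ range f := by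
  have h : ∀ n₀, ∃ z, ∃ g ∈ (seq n₀).G, (out (f z)).x n₀ = g (x.x n₀) := fun n₀ => by
    by_contra hc
    exact not_missed hf hinj x n₀ fun n hn z g hg e => hc ⟨z, orb_down hn ⟨g, hg, e⟩⟩
  choose z hz using h
  obtain ⟨t, ht⟩ := exists_ulim (hyperfilter ℕ) fun n => out (f (z n))
  refine ⟨t, fun n => ?_, (isCompact_range hf).isClosed.mem_of_tendsto
    (b := (hyperfilter ℕ : Filter ℕ)) (f := fun n => f (z n)) ?_
    (.of_forall fun n => mem_range_self _)⟩
  · obtain ⟨i, h1, h2⟩ := ((ht n).and (Nat.hyperfilter_le_atTop (eventually_ge_atTop n))).exists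
    exact h1 ▸ orb_down h2 (hz i)
  · rw [Metric.tendsto_nhds]
    intro ε hε
    obtain ⟨n, hn⟩ := near_of_pos hε
    filter_upwards [ht n] with i hi
    rw [← mk_out (f (z i)), dist_mk]
    exact hn _ _ (Near.of_eq hi)

end Pool.Agent.Work.MP_df5cf0_gt
end

-- merged part: Pool.Agent.Work.MP_df5cf0_gt.Hedge.Unic
section
/-! Two subcontinua whose union misses an orbit have connected intersection. -/

namespace Pool.Agent.Work.MP_df5cf0_gt

open Function Filter Topology Set Metric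

theorem exists_level {K : Set XX} (hK : IsClosed K) (x : Th) (h : ∀ t ∈ Orb x, mk t ∉ K) :
    ∃ n₀, ∀ n, n₀ ≤ n → ∀ y ∈ K, ∀ g ∈ (seq n).G, (out y).x n ≠ g (x.x n) := by
  by_contra hc
  have h1 : ∀ n₀, ∃ y ∈ K, ∃ g ∈ (seq n₀).G, (out y).x n₀ = g (x.x n₀) := fun n₀ => by
    by_contra h2
    exact hc ⟨n₀, fun n hn y hy g hg e => h2 ⟨y, hy, orb_down hn ⟨g, hg, e⟩⟩⟩
  choose z hz hz' using h1
  obtain ⟨t, ht⟩ := exists_ulim (hyperfilter ℕ) fun n => out (z n)
  refine h t (fun n => ?_) (hK.mem_of_tendsto (b := (hyperfilter ℕ : Filter ℕ)) (f := z) ?_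
    (.of_forall hz))
  · obtain ⟨i, h1, h2⟩ := ((ht n).and (Nat.hyperfilter_le_atTop (eventually_ge_atTop n))).exists
    exact h1 ▸ orb_down h2 (hz' i)
  · rw [Metric.tendsto_nhds]
    intro ε hε
    obtain ⟨n, hn⟩ := near_of_pos hε
    filter_upwards [ht n] with i hi
    rw [← mk_out (z i), dist_mk]
    exact hn _ _ (Near.of_eq hi)

theorem unicoherent {A B : Set XX} (cA : IsClosed A) (cB : IsClosed B) (hA : IsPreconnected A)
    (hB : IsPreconnected B) (x : Th) (h : ∀ t ∈ Orb x, mk t ∉ A ∪ B) : IsPreconnected (A ∩ B) := by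
  classical
  rw [isPreconnected_iff_subset_of_fully_disjoint_closed (cA.inter cB)]
  intro u v cu cv huv hd
  by_contra hc
  rw [not_or, not_subset, not_subset] at hc
  obtain ⟨⟨q, hq, hqu⟩, p, hp, hpv⟩ := hc
  have hpu : p ∈ u := (huv hp).resolve_right hpv
  have hqv : q ∈ v := (huv hq).resolve_left hqu
  obtain ⟨n₀, h₀⟩ := exists_level (cA.union cB) x h
  obtain ⟨δ, hδ, hdδ⟩ := hd.exists_thickenings cu.isCompact cv
  have h2 := half_pos hδ
  set W := thickening (δ / 2) u ∪ thickening (δ / 2) v with hW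
  have oW : IsOpen W := isOpen_thickening.union isOpen_thickening
  obtain ⟨η, hη, hdη⟩ := Disjoint.exists_thickenings (s := A \ W) (t := B \ W)
    (disjoint_left.2 fun y h1 h3 => h1.2 (union_subset_union (self_subset_thickening h2 _)
      (self_subset_thickening h2 _) (huv ⟨h1.1, h3.1⟩))) (cA.sdiff oW).isCompact (cB.sdiff oW)
  obtain ⟨n₁, hn₁⟩ := near_of_pos (lt_min h2 hη)
  set n := max n₀ n₁ with hn
  have hd1 : ∀ y z : XX, Near n (out y) (out z) → dist z y < min (δ / 2) η := fun y z h => by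
    rw [← dist_out]
    exact hn₁ _ _ (h.mono (le_max_right _ _)).symm
  let χ : (seq n).V → ZMod 2 := fun a =>
    if ∃ y ∈ thickening (δ / 2) u, (out y).x n = a then 1 else 0
  let N : (seq n).V → Prop := fun a => ∃ z ∈ A \ W, (seq n).adj a ((out z).x n)
  obtain ⟨s, m, hs, -⟩ := exists_sheet n (fun a b => if N a ∧ N b then χ a + χ b else 0)
    (fun a => by simp [CharTwo.add_self_eq_zero]) (fun a b => by simp only [and_comm, add_comm])
    (x.x n)
  have far : ∀ y z : XX, Near n (out y) (out z) → (∃ w ∈ thickening (δ / 2) u,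
      (out w).x n = (out y).x n) → z ∉ thickening δ v := fun y z hyz ⟨w, hw, e⟩ => by
    refine disjoint_left.1 hdδ ?_
    obtain ⟨w', hw', h3⟩ := mem_thickening_iff.1 hw
    have h4 := (hd1 w z (by rwa [Near, e])).trans_le (min_le_left _ _)
    exact mem_thickening_iff.2 ⟨w', hw', by linarith [dist_triangle z w w']⟩
  have tr : ∀ y z : XX, Near n (out y) (out z) → χ ((out y).x n) ≠ χ ((out z).x n) →
      y ∉ W ∨ z ∉ W := fun y z hyz hne => by
    by_cases h1 : ∃ w ∈ thickening (δ / 2) u, (out w).x n = (out y).x n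
    · refine Or.inr fun hz => hz.elim (fun hz => hne ?_) fun hz =>
        far y z hyz h1 (thickening_mono (half_le_self hδ.le) _ hz)
      exact (if_pos h1).trans (if_pos ⟨z, hz, rfl⟩).symm
    · by_cases h3 : ∃ w ∈ thickening (δ / 2) u, (out w).x n = (out z).x n
      · exact Or.inl fun hy => hy.elim (fun hy => h1 ⟨y, hy, rfl⟩) fun hy =>
          far z y hyz.symm h3 (thickening_mono (half_le_self hδ.le) _ hy)
      · exact absurd ((if_neg h1).trans (if_neg h3).symm) hne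
  have same : ∀ a b, χ a = χ b → (if N a ∧ N b then χ a + χ b else 0) = 0 := fun a b e => by
    rw [e, CharTwo.add_self_eq_zero, ite_self]
  have eA : s (out p) + χ ((out p).x n) = s (out q) + χ ((out q).x n) :=
    const_on hA continuous_id (fun y => s (out y) + χ ((out y).x n)) (max m n)
      (fun y hy z hz hyz => by
        have h1 : Near n (out y) (out z) := hyz.mono (le_max_right _ _)
        rw [hs (out y) (out z) (hyz.mono (le_max_left _ _)) (h₀ n (le_max_left _ _) y (Or.inl hy))]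
        by_cases e : χ ((out y).x n) = χ ((out z).x n)
        · rw [same _ _ e, add_zero, e]
        · have h3 : N ((out y).x n) ∧ N ((out z).x n) := (tr y z h1 e).elim
            (fun h => ⟨⟨y, ⟨hy, h⟩, Near.refl n _⟩, ⟨y, ⟨hy, h⟩, h1.symm⟩⟩)
            fun h => ⟨⟨z, ⟨hz, h⟩, h1⟩, ⟨z, ⟨hz, h⟩, Near.refl n _⟩⟩
          rw [if_pos h3, add_assoc, add_assoc, CharTwo.add_self_eq_zero, add_zero]) hp.1 hq.1
  have nN : ∀ y ∈ B, y ∉ W → ¬ N ((out y).x n) := fun y hy h ⟨z, hz, h1⟩ =>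
    disjoint_left.1 hdη (mem_thickening_iff.2 ⟨z, hz, (hd1 z y (Near.symm h1)).trans_le
      (min_le_right _ _)⟩) (self_subset_thickening hη _ ⟨hy, h⟩)
  have eB : s (out p) = s (out q) :=
    const_on hB continuous_id (fun y => s (out y)) (max m n)
      (fun y hy z hz hyz => by
        have h1 : Near n (out y) (out z) := hyz.mono (le_max_right _ _)
        rw [hs (out y) (out z) (hyz.mono (le_max_left _ _)) (h₀ n (le_max_left _ _) y (Or.inr hy))]
        by_cases e : χ ((out y).x n) = χ ((out z).x n)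
        · rw [same _ _ e, add_zero]
        · rw [if_neg fun h3 => (tr y z h1 e).elim (fun h => nN y hy h h3.1) fun h => nN z hz h h3.2,
            add_zero]) hp.2 hq.2
  have e1 : χ ((out p).x n) = 1 := if_pos ⟨p, self_subset_thickening h2 _ hpu, rfl⟩
  have e2 : χ ((out q).x n) = 0 :=
    if_neg fun h => far q q (Near.refl n _) h (self_subset_thickening hδ _ hqv)
  rw [e1, e2, eB] at eA
  simp at eA

end Pool.Agent.Work.MP_df5cf0_gt
end
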